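import Pool.Agent.Helper70.MM.Goals2

open MeasureTheory Set Metric
open scoped ENNReal RealInnerProductSpace Topology
open Pool.Agent.Results.MP_91ee6f_gt

namespace Pool.Agent.Helper58.MM

open _root_.Pool.Agent.Helper70.MM

/-- Reflection of the coordinates in `S`. -/
noncomputable def rfl58 (n : ℕ) (ℓ : ℝ) (S : Finset (Fin n)) (x : En n) : En n :=
  WithLp.toLp 2 (fun i => if i ∈ S then ℓ - x i else x i)

lemma dist_rfl58 (n : ℕ) (ℓ : ℝ) (S : Finset (Fin n)) (x y : En n) :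
    dist (rfl58 n ℓ S x) (rfl58 n ℓ S y) = dist x y := by
  rw [EuclideanSpace.dist_eq, EuclideanSpace.dist_eq]
  congr 1
  apply Finset.sum_congr rfl
  intro i _
  simp only [rfl58, Real.dist_eq]
  split_ifs with h
  · have h1 : ℓ - x i - (ℓ - y i) = -(x i - y i) := by ring
    rw [h1, abs_neg]
  · rfl

lemma rfl58_vert (n : ℕ) (ℓ : ℝ) (S T : Finset (Fin n)) :
    rfl58 n ℓ S (vert n ℓ T) = vert n ℓ (symmDiff T S) := by
  ext i
  simp only [rfl58, vert, Finset.mem_symmDiff]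
  by_cases h1 : i ∈ S <;> by_cases h2 : i ∈ T <;> simp [h1, h2]

lemma PV_rfl58 (n : ℕ) (ℓ : ℝ) (S : Finset (Fin n)) (x : En n) :
    PV n ℓ (rfl58 n ℓ S x) = PV n ℓ x := by
  unfold PV
  symm
  apply Finset.sum_bij (fun T _ => symmDiff T S)
  · intro T _
    exact Finset.mem_univ _
  · intro T _ T' _ h
    exact symmDiff_left_injective S h
  · intro T _
    exact ⟨symmDiff T S, Finset.mem_univ _, symmDiff_symmDiff_cancel_right S T⟩
  · intro T _
    rw [← rfl58_vert, dist_rfl58]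

theorem csym : CSYM := by
  intro n ℓ hn hℓ
  constructor
  · intro T
    rw [← PV_rfl58 n ℓ T 0]
    congr 1
    ext i
    simp [rfl58, vert]
  · intro x hx hint
    have hn' : 0 < n := by omega
    obtain ⟨i, hi⟩ : ∃ i : Fin n, ∀ j, j ≠ i → ¬ (0 < x j ∧ x j < ℓ) := by
      by_cases h : ∃ i : Fin n, 0 < x i ∧ x i < ℓ
      · obtain ⟨i, hi⟩ := h
        refine ⟨i, fun j hj hj2 => hint i j (Ne.symm hj) ⟨hi.1, hi.2, hj2.1, hj2.2⟩⟩
      · exact ⟨⟨0, hn'⟩, fun j _ hj2 => h ⟨j, hj2⟩⟩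
    refine ⟨i, x i, (hx i).1, (hx i).2, ?_⟩
    rw [← PV_rfl58 n ℓ (Finset.univ.filter fun j => j ≠ i ∧ x j = ℓ) x]
    congr 1
    ext j
    by_cases hji : j = i
    · subst hji
      simp [rfl58]
    · have h1 := hi j hji
      have h2 := hx j
      by_cases h3 : x j = ℓ
      · simp [rfl58, hji, h3]
      · have h4 : x j = 0 := by
          by_contra h5
          apply h1
          exact ⟨lt_of_le_of_ne h2.1 (Ne.symm h5), lt_of_le_of_ne h2.2 h3⟩
        simp [rfl58, hji, h4, hℓ.ne]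

end Pool.Agent.Helper58.MM
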