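import Pool.Agent.Helper70.MM.Goals3

/-!
Packet MM-EDGEJ (project MM of helper70, MP_91ee6f_gt): `DERV2 → DERVJ → EDGEJ`.
-/

open Set

namespace Pool.Agent.Helper58.MM

open _root_.Pool.Agent.Helper70.MM

lemma hasDerivAt_gJ {a : ℝ} (ha : 0 < a) (t : ℝ) :
    HasDerivAt (fun t : ℝ => Real.exp (-Real.sqrt (a + t ^ 2)))
      (-(t * (Real.exp (-Real.sqrt (a + t ^ 2)) / Real.sqrt (a + t ^ 2)))) t := by
  have hpos : 0 < a + t ^ 2 := by positivity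
  have h1 : HasDerivAt (fun t : ℝ => a + t ^ 2) (2 * t) t := by
    simpa using ((hasDerivAt_id t).pow 2).const_add a
  have h2 := (h1.sqrt hpos.ne').neg.exp
  refine h2.congr_deriv ?_
  have hs : Real.sqrt (a + t ^ 2) ≠ 0 := (Real.sqrt_pos.2 hpos).ne'
  simp only [Pi.neg_apply]
  field_simp

lemma sqrt_scaleJ (j : ℝ) {ℓ t : ℝ} (hℓ : 0 < ℓ) :
    Real.sqrt (j * ℓ ^ 2 + t ^ 2) = ℓ * Real.sqrt (j + (t / ℓ) ^ 2) := by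
  have h : j * ℓ ^ 2 + t ^ 2 = ℓ ^ 2 * (j + (t / ℓ) ^ 2) := by
    field_simp
  rw [h, Real.sqrt_mul (by positivity), Real.sqrt_sq hℓ.le]

/-- The difference of the two sides. -/
noncomputable def Fj (j : ℕ) (ℓ s : ℝ) : ℝ :=
  (Real.exp (-Real.sqrt (j * ℓ ^ 2 + s ^ 2)) + Real.exp (-Real.sqrt (j * ℓ ^ 2 + (ℓ - s) ^ 2)) -
    Real.exp (-(Real.sqrt j * ℓ)) - Real.exp (-(Real.sqrt (j + 1) * ℓ))) *
      (1 - Real.exp (-ℓ)) -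
    ff ℓ (j + 1) * ((1 - Real.exp (-s)) * (1 - Real.exp (-(ℓ - s))))

lemma hasDerivAt_Fj {j : ℕ} (hj : 1 ≤ j) {ℓ : ℝ} (hℓ : 0 < ℓ) (s : ℝ) :
    HasDerivAt (Fj j ℓ)
      ((-(s * (Real.exp (-Real.sqrt (j * ℓ ^ 2 + s ^ 2)) / Real.sqrt (j * ℓ ^ 2 + s ^ 2))) +
        (ℓ - s) * (Real.exp (-Real.sqrt (j * ℓ ^ 2 + (ℓ - s) ^ 2)) /
          Real.sqrt (j * ℓ ^ 2 + (ℓ - s) ^ 2))) * (1 - Real.exp (-ℓ)) -
        ff ℓ (j + 1) * (Real.exp (-s) - Real.exp (-(ℓ - s)))) s := by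
  have hj0 : (0 : ℝ) < j := by exact_mod_cast hj
  have ha : (0 : ℝ) < j * ℓ ^ 2 := by positivity
  have h1 := hasDerivAt_gJ ha s
  have h0 : HasDerivAt (fun s : ℝ => ℓ - s) (-1) s := by
    simpa using (hasDerivAt_id s).const_sub ℓ
  have h2 := (hasDerivAt_gJ ha (ℓ - s)).comp s h0
  have h3 : HasDerivAt (fun s : ℝ => 1 - Real.exp (-s)) (Real.exp (-s)) s := by
    refine (((hasDerivAt_id s).neg.exp).const_sub 1).congr_deriv ?_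
    simp
  have h4 : HasDerivAt (fun s : ℝ => 1 - Real.exp (-(ℓ - s))) (-Real.exp (-(ℓ - s))) s := by
    refine ((h0.neg.exp).const_sub 1).congr_deriv ?_
    simp
  have h5 := (((h1.add h2).sub_const (Real.exp (-(Real.sqrt j * ℓ)))).sub_const
    (Real.exp (-(Real.sqrt (j + 1) * ℓ)))).mul_const (1 - Real.exp (-ℓ))
  have h6 := (h3.mul h4).const_mul (ff ℓ (j + 1))
  have h7 := h5.sub h6
  refine h7.congr_deriv ?_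
  ring

lemma Fj_zero {j : ℕ} {ℓ : ℝ} (hℓ : 0 < ℓ) : Fj j ℓ 0 = 0 := by
  have h1 : Real.sqrt (j * ℓ ^ 2 + (0 : ℝ) ^ 2) = Real.sqrt j * ℓ := by
    rw [show (j : ℝ) * ℓ ^ 2 + (0 : ℝ) ^ 2 = j * ℓ ^ 2 by ring, Real.sqrt_mul (by positivity),
      Real.sqrt_sq hℓ.le]
  have h2 : Real.sqrt (j * ℓ ^ 2 + (ℓ - 0) ^ 2) = Real.sqrt (j + 1) * ℓ := by
    rw [show (j : ℝ) * ℓ ^ 2 + (ℓ - 0) ^ 2 = (j + 1) * ℓ ^ 2 by ring,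
      Real.sqrt_mul (by positivity), Real.sqrt_sq hℓ.le]
  unfold Fj
  rw [h1, h2]
  simp

lemma Fj_symm (j : ℕ) (ℓ s : ℝ) : Fj j ℓ (ℓ - s) = Fj j ℓ s := by
  unfold Fj
  rw [show ℓ - (ℓ - s) = s by ring]
  ring

/-- The two cases `j = 1`, `j ≥ 2` together. -/
lemma dervAll (h2 : DERV2) (hJ : DERVJ) (j : ℕ) (ℓ u v : ℝ) (hj : 1 ≤ j) (hℓ : 0 < ℓ)
    (hℓ1 : ℓ ≤ 1) (hv : 0 ≤ v) (hvu : v ≤ u) (huv : u + v = 1) :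
    ff ℓ (j + 1) * (Real.exp (-(ℓ * v)) - Real.exp (-(ℓ * u))) ≤
      (u * ff ℓ (j + u ^ 2) - v * ff ℓ (j + v ^ 2)) * (1 - Real.exp (-ℓ)) := by
  rcases Nat.lt_or_ge 1 j with h | h
  · exact hJ j ℓ u v h hℓ hℓ1 hv hvu huv
  · have hj1 : j = 1 := le_antisymm h hj
    subst hj1
    have := h2 ℓ u v hℓ hℓ1 hv hvu huv
    rw [show ((1 : ℕ) : ℝ) + 1 = 2 by norm_num, Nat.cast_one]
    exact this

lemma deriv_Fj_nonneg (h2 : DERV2) (hJ : DERVJ) {j : ℕ} (hj : 1 ≤ j) {ℓ : ℝ} (hℓ : 0 < ℓ)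
    (hℓ1 : ℓ ≤ 1) {s : ℝ} (hs : 0 ≤ s) (hs2 : s ≤ ℓ / 2) :
    0 ≤ (-(s * (Real.exp (-Real.sqrt (j * ℓ ^ 2 + s ^ 2)) / Real.sqrt (j * ℓ ^ 2 + s ^ 2))) +
        (ℓ - s) * (Real.exp (-Real.sqrt (j * ℓ ^ 2 + (ℓ - s) ^ 2)) /
          Real.sqrt (j * ℓ ^ 2 + (ℓ - s) ^ 2))) * (1 - Real.exp (-ℓ)) -
        ff ℓ (j + 1) * (Real.exp (-s) - Real.exp (-(ℓ - s))) := by
  have h := dervAll h2 hJ j ℓ ((ℓ - s) / ℓ) (s / ℓ) hj hℓ hℓ1 (by positivity)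
    (by rw [div_le_div_iff_of_pos_right hℓ]; linarith) (by field_simp; ring)
  have hj0 : (0 : ℝ) < j := by exact_mod_cast hj
  rw [sqrt_scaleJ j (t := s) hℓ, sqrt_scaleJ j (t := ℓ - s) hℓ]
  have e1 : s * (Real.exp (-(ℓ * Real.sqrt (j + (s / ℓ) ^ 2))) /
      (ℓ * Real.sqrt (j + (s / ℓ) ^ 2))) = s / ℓ * ff ℓ (j + (s / ℓ) ^ 2) := by
    unfold ff
    have : Real.sqrt (j + (s / ℓ) ^ 2) ≠ 0 := (Real.sqrt_pos.2 (by positivity)).ne'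
    field_simp
  have e2 : (ℓ - s) * (Real.exp (-(ℓ * Real.sqrt (j + ((ℓ - s) / ℓ) ^ 2))) /
      (ℓ * Real.sqrt (j + ((ℓ - s) / ℓ) ^ 2))) =
      (ℓ - s) / ℓ * ff ℓ (j + ((ℓ - s) / ℓ) ^ 2) := by
    unfold ff
    have : Real.sqrt (j + ((ℓ - s) / ℓ) ^ 2) ≠ 0 := (Real.sqrt_pos.2 (by positivity)).ne'
    field_simp
  have e3 : ℓ * (s / ℓ) = s := by field_simp
  have e4 : ℓ * ((ℓ - s) / ℓ) = ℓ - s := by field_simp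
  rw [e3, e4] at h
  rw [e1, e2]
  linarith

lemma Fj_nonneg_half (h2 : DERV2) (hJ : DERVJ) {j : ℕ} (hj : 1 ≤ j) {ℓ : ℝ} (hℓ : 0 < ℓ)
    (hℓ1 : ℓ ≤ 1) {s : ℝ} (hs : 0 ≤ s) (hs2 : s ≤ ℓ / 2) : 0 ≤ Fj j ℓ s := by
  have hmono : MonotoneOn (Fj j ℓ) (Icc 0 (ℓ / 2)) := by
    refine monotoneOn_of_deriv_nonneg (convex_Icc _ _)
      (fun x _ => (hasDerivAt_Fj hj hℓ x).continuousAt.continuousWithinAt)
      (fun x _ => (hasDerivAt_Fj hj hℓ x).differentiableAt.differentiableWithinAt) ?_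
    intro x hx
    rw [interior_Icc] at hx
    rw [(hasDerivAt_Fj hj hℓ x).deriv]
    exact deriv_Fj_nonneg h2 hJ hj hℓ hℓ1 hx.1.le hx.2.le
  have := hmono (left_mem_Icc.2 (by positivity)) ⟨hs, hs2⟩ hs
  rwa [Fj_zero hℓ] at this

theorem edgej : DERV2 → DERVJ → EDGEJ := by
  intro h2 hJ j ℓ s hj hℓ hℓ1 hs hs2
  have key : 0 ≤ Fj j ℓ s := by
    rcases le_total s (ℓ / 2) with h | h
    · exact Fj_nonneg_half h2 hJ hj hℓ hℓ1 hs h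
    · rw [← Fj_symm]
      exact Fj_nonneg_half h2 hJ hj hℓ hℓ1 (by linarith) (by linarith)
  unfold Fj at key
  linarith

end Pool.Agent.Helper58.MM
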